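import Pool.Agent.H.MP_a0fd6e_gt.Defs

set_option linter.unusedSimpArgs false
set_option linter.unusedVariables false

namespace Pool.Agent.H.MP_a0fd6e_gt
open Set Topology

universe u v

def Forest (T : Type*) [PartialOrder T] : Prop :=
  (∀ a b t : T, a ≤ t → b ≤ t → a ≤ b ∨ b ≤ a) ∧ WellFounded ((· < ·) : T → T → Prop)

lemma forest_of {T : Type*} [PartialOrder T] (h : IsTreeOrder T) : Forest T := by
  constructor
  · intro a b t ha hb
    have := h t
    rcases trichotomous_of (fun x y : Set.Iic t => x < y) ⟨a, ha⟩ ⟨b, hb⟩ with h1 | h1 | h1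
    · exact Or.inl (le_of_lt h1)
    · exact Or.inl (le_of_eq (congrArg Subtype.val h1))
    · exact Or.inr (le_of_lt h1)
  · refine ⟨fun t => ?_⟩
    have hw : WellFounded (fun x y : Set.Iic t => x < y) := (h t).wf
    have : ∀ x : Set.Iic t, Acc ((· < ·) : T → T → Prop) x.1 := by
      intro x
      induction x using hw.induction with
      | _ x ih =>
        refine ⟨_, fun y hy => ?_⟩
        exact ih ⟨y, le_trans hy.le x.2⟩ hy
    exact this ⟨t, le_refl t⟩

lemma tree_of {T : Type*} [PartialOrder T] (h : Forest T) : IsTreeOrder T := by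
  intro t
  have hw : WellFounded (fun x y : Set.Iic t => x < y) :=
    InvImage.wf (fun x : Set.Iic t => x.1) h.2
  have : IsWellFounded (Set.Iic t) (· < ·) := ⟨hw⟩
  have : Std.Trichotomous (fun x y : Set.Iic t => x < y) := by
    refine ⟨fun a b h1 h2 => ?_⟩
    rcases h.1 a.1 b.1 t a.2 b.2 with h3 | h3
    · exact Subtype.ext (eq_of_le_of_not_lt h3 h1)
    · exact Subtype.ext (eq_of_le_of_not_lt h3 h2).symm
  exact {}

section
variable {T : Type*} [PartialOrder T]

lemma Ray.cmp (R : Ray T) {a b : T} (ha : a ∈ R.1) (hb : b ∈ R.1) : a ≤ b ∨ b ≤ a :=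
  R.2.2.1.total ha hb

lemma Ray.low (R : Ray T) {a b : T} (hab : a ≤ b) (hb : b ∈ R.1) : a ∈ R.1 :=
  R.2.2.2.1 hab hb

lemma Ray.up (R : Ray T) {a : T} (ha : a ∈ R.1) : ∃ b ∈ R.1, a < b := R.2.2.2.2 a ha

lemma Ray.ext' {R S : Ray T} (h : ∀ x, x ∈ R.1 ↔ x ∈ S.1) : R = S := Subtype.ext (Set.ext h)

lemma isRay_mk {R : Set T} (h0 : R.Nonempty) (h1 : ∀ a ∈ R, ∀ b ∈ R, a ≤ b ∨ b ≤ a)
    (h2 : ∀ a b, a ≤ b → b ∈ R → a ∈ R) (h3 : ∀ a ∈ R, ∃ b ∈ R, a < b) : IsRay R :=
  ⟨h0, fun a ha b hb _ => h1 a ha b hb, fun b a hab hb => h2 a b hab hb, h3⟩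

lemma cont_ind : Continuous (ind : Ray T → T → Bool) := continuous_induced_dom

lemma clopen_mem (t : T) : IsClopen {R : Ray T | t ∈ R.1} := by
  have h : Continuous fun R : Ray T => ind R t := (continuous_apply t).comp cont_ind
  have := (isClopen_discrete ({true} : Set Bool)).preimage h
  convert this using 1
  ext R; simp [ind]

lemma cont_of {X : Type*} [TopologicalSpace X] (f : X → Ray T)
    (h : ∀ t, IsClopen {y | t ∈ (f y).1}) : Continuous f := by
  classical
  refine continuous_induced_rng.2 (continuous_pi fun t => ?_)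
  refine continuous_def.2 fun s _ => ?_
  have e : ((fun a => (ind ∘ f) a t) ⁻¹' s) =
      (if true ∈ s then {y | t ∈ (f y).1} else ∅) ∪
        (if false ∈ s then {y | t ∈ (f y).1}ᶜ else ∅) := by
    ext y
    by_cases h1 : t ∈ (f y).1 <;> by_cases h2 : true ∈ s <;> by_cases h3 : false ∈ s <;>
      simp [ind, h1, h2, h3]
  rw [e]
  refine IsOpen.union ?_ ?_
  · split_ifs
    · exact (h t).isOpen
    · exact isOpen_empty
  · split_ifs
    · exact (h t).compl.isOpen
    · exact isOpen_empty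

lemma Ray.ub (R : Ray T) (s : Finset T) : ∃ t ∈ R.1, ∀ a ∈ s, a ∈ R.1 → a ≤ t := by
  classical
  induction s using Finset.induction_on with
  | empty => obtain ⟨t, ht⟩ := R.2.1; exact ⟨t, ht, by simp⟩
  | insert x s hx ih =>
    obtain ⟨t, ht, h⟩ := ih
    by_cases hx' : x ∈ R.1
    · rcases R.cmp hx' ht with h1 | h1
      · refine ⟨t, ht, fun a ha haR => ?_⟩
        rcases Finset.mem_insert.1 ha with rfl | ha
        · exact h1
        · exact h a ha haR
      · refine ⟨x, hx', fun a ha haR => ?_⟩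
        rcases Finset.mem_insert.1 ha with rfl | ha
        · exact le_rfl
        · exact (h a ha haR).trans h1
    · refine ⟨t, ht, fun a ha haR => ?_⟩
      rcases Finset.mem_insert.1 ha with rfl | ha
      · exact absurd haR hx'
      · exact h a ha haR

lemma open_basis {U : Set (Ray T)} (hU : IsOpen U) {X : Ray T} (hX : X ∈ U) :
    ∃ t ∈ X.1, ∃ F : Finset T, (∀ s ∈ F, s ∉ X.1) ∧
      ∀ Y : Ray T, t ∈ Y.1 → (∀ s ∈ F, s ∉ Y.1) → Y ∈ U := by
  classical
  obtain ⟨V, hV, rfl⟩ := isOpen_induced_iff.1 hU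
  obtain ⟨I, w, h1, h2⟩ := isOpen_pi_iff.1 hV _ hX
  obtain ⟨t, ht, h⟩ := X.ub I
  refine ⟨t, ht, I.filter (fun s => s ∉ X.1), fun s hs => (Finset.mem_filter.1 hs).2, ?_⟩
  intro Y hY hF
  apply h2
  intro i hi
  have : ind Y i = ind X i := by
    by_cases hiX : i ∈ X.1
    · have : i ∈ Y.1 := Y.low (h i hi hiX) hY
      simp [ind, hiX, this]
    · have : i ∉ Y.1 := hF i (Finset.mem_filter.2 ⟨hi, hiX⟩)
      simp [ind, hiX, this]
  rw [this]
  exact (h1 i hi).2

lemma open_of_basis {U : Set (Ray T)}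
    (h : ∀ X ∈ U, ∃ t ∈ X.1, ∃ F : Finset T, (∀ s ∈ F, s ∉ X.1) ∧
      ∀ Y : Ray T, t ∈ Y.1 → (∀ s ∈ F, s ∉ Y.1) → Y ∈ U) : IsOpen U := by
  refine isOpen_iff_forall_mem_open.2 fun X hX => ?_
  obtain ⟨t, ht, F, h1, h2⟩ := h X hX
  refine ⟨{Y | t ∈ Y.1} ∩ ⋂ s ∈ F, {Y | s ∈ Y.1}ᶜ, ?_, ?_, ?_⟩
  · intro Y hY
    refine h2 Y hY.1 fun s hs => ?_
    have := hY.2
    simp only [mem_iInter] at this
    exact this s hs
  · exact (clopen_mem t).isOpen.inter
      (isOpen_biInter_finset fun s _ => (clopen_mem s).compl.isOpen)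
  · refine ⟨ht, ?_⟩
    simp only [mem_iInter]
    exact h1
end

/-- quasi-ray, via forests in universe `u` -/
def QR (X : Type v) [TopologicalSpace X] : Prop :=
  ∃ (F : Type u) (_ : PartialOrder F), Forest F ∧
    ∃ f : X → Ray F, Continuous f ∧ Function.Bijective f

lemma QR.comp {X : Type*} {Y : Type*} [TopologicalSpace X] [TopologicalSpace Y] (h : QR.{u} Y)
    (g : X → Y) (hg : Continuous g) (hb : Function.Bijective g) : QR.{u} X := by
  obtain ⟨F, i, hF, f, hf, hb'⟩ := h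
  exact ⟨F, i, hF, f ∘ g, hf.comp hg, hb'.comp hb⟩

lemma QR.sum {X : Type v} [TopologicalSpace X] {ι : Type u} (g : X → ι)
    (ho : ∀ i, IsOpen {x | g x = i}) (h : ∀ i, QR.{u} {x | g x = i}) : QR.{u} X := by
  choose F inst hF f hf hb using h
  have hc : ∀ i, IsClosed {x | g x = i} := by
    intro i
    rw [← isOpen_compl_iff]
    have : {x | g x = i}ᶜ = ⋃ j ∈ {j | j ≠ i}, {x | g x = j} := by
      ext x; simp
    rw [this]
    exact isOpen_biUnion fun j _ => ho j
  have le1 : ∀ {a b : Σ i, F i}, a ≤ b → a.1 = b.1 := fun h => (Sigma.le_def.1 h).1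
  refine ⟨Σ i, F i, inferInstance, ⟨?_, ?_⟩, ?_⟩
  · rintro ⟨i, a⟩ ⟨j, b⟩ ⟨k, t⟩ h1 h2
    obtain rfl : i = k := le1 h1
    obtain rfl : j = i := le1 h2
    simp only [Sigma.mk_le_mk_iff] at *
    exact (hF j).1 a b t h1 h2
  · refine ⟨fun ⟨i, a⟩ => ?_⟩
    induction a using (hF i).2.induction with
    | _ a ih =>
      refine ⟨_, fun ⟨j, b⟩ hb => ?_⟩
      obtain rfl : j = i := le1 (le_of_lt hb)
      exact ih b (Sigma.mk_lt_mk_iff.1 hb)
  · let φ : X → Set (Σ i, F i) := fun x => {p | ∃ h : g x = p.1, p.2 ∈ (f p.1 ⟨x, h⟩).1}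
    have hφ : ∀ x, IsRay (φ x) := by
      intro x
      refine isRay_mk ?_ ?_ ?_ ?_
      · obtain ⟨a, ha⟩ := (f (g x) ⟨x, rfl⟩).2.1
        exact ⟨⟨g x, a⟩, rfl, ha⟩
      · rintro ⟨i, a⟩ ⟨h1, ha⟩ ⟨j, b⟩ ⟨h2, hb⟩
        dsimp only at h1 h2 ha hb
        subst h1
        subst h2
        simp only [Sigma.mk_le_mk_iff]
        exact Ray.cmp _ ha hb
      · rintro ⟨i, a⟩ ⟨j, b⟩ hab ⟨h2, hb⟩
        dsimp only at h2 hb
        subst h2
        obtain rfl : i = g x := le1 hab
        exact ⟨rfl, Ray.low _ (Sigma.mk_le_mk_iff.1 hab) hb⟩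
      · rintro ⟨i, a⟩ ⟨h1, ha⟩
        dsimp only at h1 ha
        subst h1
        obtain ⟨b, hb, hab⟩ := Ray.up _ ha
        exact ⟨⟨g x, b⟩, ⟨rfl, hb⟩, Sigma.mk_lt_mk_iff.2 hab⟩
    refine ⟨fun x => ⟨φ x, hφ x⟩, cont_of _ ?_, ?_, ?_⟩
    · rintro ⟨i, a⟩
      have e : {y | (⟨i, a⟩ : Σ i, F i) ∈ φ y} =
          Subtype.val '' {y : {x | g x = i} | a ∈ (f i y).1} := by
        ext y
        constructor
        · rintro ⟨h, hy⟩; exact ⟨⟨y, h⟩, hy, rfl⟩
        · rintro ⟨⟨y, h⟩, hy, rfl⟩; exact ⟨h, hy⟩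
      have hcl : IsClopen {y : {x | g x = i} | a ∈ (f i y).1} := (clopen_mem a).preimage (hf i)
      show IsClopen {y | (⟨i, a⟩ : Σ i, F i) ∈ φ y}
      rw [e]
      exact ⟨(hc i).isClosedMap_subtype_val _ hcl.1, (ho i).isOpenMap_subtype_val _ hcl.2⟩
    · intro x y hxy
      have hs : φ x = φ y := congrArg Subtype.val hxy
      obtain ⟨a, ha⟩ := (f (g x) ⟨x, rfl⟩).2.1
      have h1 : (⟨g x, a⟩ : Σ i, F i) ∈ φ y := hs ▸ (⟨rfl, ha⟩ : (⟨g x, a⟩ : Σ i, F i) ∈ φ x)
      obtain ⟨h, -⟩ := h1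
      have : f (g x) ⟨x, rfl⟩ = f (g x) ⟨y, h⟩ := by
        refine Ray.ext' fun b => ⟨fun hb => ?_, fun hb => ?_⟩
        · have h1 : (⟨g x, b⟩ : Σ i, F i) ∈ φ y := hs ▸ (⟨rfl, hb⟩ : (⟨g x, b⟩ : Σ i, F i) ∈ φ x)
          exact h1.2
        · have h1 : (⟨g x, b⟩ : Σ i, F i) ∈ φ x := hs.symm ▸ (⟨h, hb⟩ : (⟨g x, b⟩ : Σ i, F i) ∈ φ y)
          exact h1.2
      exact congrArg Subtype.val ((hb (g x)).1 this)
    · intro R
      obtain ⟨⟨i, a⟩, ha⟩ := R.2.1
      have hi : ∀ p ∈ R.1, p.1 = i := by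
        intro p hp
        rcases R.cmp hp ha with h | h
        · exact le1 h
        · exact (le1 h).symm
      have hR : IsRay {b : F i | (⟨i, b⟩ : Σ i, F i) ∈ R.1} := by
        refine isRay_mk ⟨a, ha⟩ ?_ ?_ ?_
        · intro b hb c hc
          simpa only [Sigma.mk_le_mk_iff] using R.cmp hb hc
        · intro b c hbc hc
          exact R.low (Sigma.mk_le_mk_iff.2 hbc) hc
        · intro b hb
          obtain ⟨⟨j, c⟩, hc, hbc⟩ := R.up hb
          obtain rfl : j = i := hi _ hc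
          exact ⟨c, hc, Sigma.mk_lt_mk_iff.1 hbc⟩
      obtain ⟨⟨x, hx⟩, e⟩ := (hb i).2 ⟨_, hR⟩
      refine ⟨x, Ray.ext' ?_⟩
      rintro ⟨j, b⟩
      constructor
      · rintro ⟨h, hb'⟩
        obtain rfl : j = i := h.symm.trans hx
        have : b ∈ (f j ⟨x, hx⟩).1 := hb'
        rw [e] at this
        exact this
      · intro hb'
        obtain rfl : j = i := hi _ hb'
        refine ⟨hx, ?_⟩
        show b ∈ (f j ⟨x, hx⟩).1
        rw [e]
        exact hb'

lemma QR.tree {X : Type v} [TopologicalSpace X] (h : QR.{u} X) :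
    ∃ (T' : Type u) (_ : PartialOrder T') (_ : OrderBot T'), IsTreeOrder T' ∧
      ∃ f : X → Ray T', Continuous f ∧ Function.Bijective f := by
  obtain ⟨F, inst, hF, f, hf, hb⟩ := h
  refine ⟨WithBot F, inferInstance, inferInstance, tree_of ⟨?_, ?_⟩, ?_⟩
  · intro a b t ha hb
    induction a with
    | bot => exact Or.inl bot_le
    | coe a =>
      induction b with
      | bot => exact Or.inr bot_le
      | coe b =>
        induction t with
        | bot => simp at ha
        | coe t =>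
          simp only [WithBot.coe_le_coe] at *
          exact hF.1 a b t ha hb
  · have : WellFoundedLT F := ⟨hF.2⟩
    exact (inferInstance : WellFoundedLT (WithBot F)).wf
  · let φ : Ray F → Set (WithBot F) := fun R => {p | ∀ a : F, p = a → a ∈ R.1}
    have m0 : ∀ R, (⊥ : WithBot F) ∈ φ R := fun R a h => absurd h (by simp)
    have m1 : ∀ R (a : F), (a : WithBot F) ∈ φ R ↔ a ∈ R.1 := fun R a =>
      ⟨fun h => h a rfl, fun h b e => (WithBot.coe_inj.1 e) ▸ h⟩
    have hφ : ∀ R, IsRay (φ R) := by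
      intro R
      refine isRay_mk ⟨⊥, m0 R⟩ ?_ ?_ ?_
      · intro a ha b hb
        induction a with
        | bot => exact Or.inl bot_le
        | coe a =>
          induction b with
          | bot => exact Or.inr bot_le
          | coe b =>
            simp only [WithBot.coe_le_coe]
            exact R.cmp ((m1 R a).1 ha) ((m1 R b).1 hb)
      · intro a b hab hb
        induction a with
        | bot => exact m0 R
        | coe a =>
          induction b with
          | bot => simp at hab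
          | coe b => exact (m1 R a).2 (R.low (WithBot.coe_le_coe.1 hab) ((m1 R b).1 hb))
      · intro a ha
        induction a with
        | bot =>
          obtain ⟨b, hb⟩ := R.2.1
          exact ⟨b, (m1 R b).2 hb, WithBot.bot_lt_coe b⟩
        | coe a =>
          obtain ⟨b, hb, hab⟩ := R.up ((m1 R a).1 ha)
          exact ⟨b, (m1 R b).2 hb, WithBot.coe_lt_coe.2 hab⟩
    let ψ : Ray F → Ray (WithBot F) := fun R => ⟨φ R, hφ R⟩
    refine ⟨ψ ∘ f, Continuous.comp (cont_of _ ?_) hf, Function.Bijective.comp ⟨?_, ?_⟩ hb⟩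
    · intro t
      induction t with
      | bot =>
        have : {y | (⊥ : WithBot F) ∈ (ψ y).1} = univ := eq_univ_of_forall fun R => m0 R
        rw [this]; exact isClopen_univ
      | coe a =>
        have : {y | (a : WithBot F) ∈ (ψ y).1} = {y : Ray F | a ∈ y.1} := Set.ext fun R => m1 R a
        rw [this]; exact clopen_mem a
    · intro R S h
      have hs : φ R = φ S := congrArg Subtype.val h
      refine Ray.ext' fun a => ?_
      rw [← m1, ← m1, hs]
    · intro R
      have hbot : (⊥ : WithBot F) ∈ R.1 := by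
        obtain ⟨a, ha⟩ := R.2.1
        exact R.low bot_le ha
      have hup : ∀ a ∈ R.1, ∃ b : F, (b : WithBot F) ∈ R.1 ∧ a < b := by
        intro a ha
        obtain ⟨b, hb, hab⟩ := R.up ha
        induction b with
        | bot => simp at hab
        | coe b => exact ⟨b, hb, hab⟩
      have hR : IsRay {a : F | (a : WithBot F) ∈ R.1} := by
        refine isRay_mk ?_ ?_ ?_ ?_
        · obtain ⟨b, hb, -⟩ := hup ⊥ hbot
          exact ⟨b, hb⟩
        · intro a ha b hb
          simpa only [WithBot.coe_le_coe] using R.cmp ha hb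
        · intro a b hab hb
          exact R.low (WithBot.coe_le_coe.2 hab) hb
        · intro a ha
          obtain ⟨b, hb, hab⟩ := hup a ha
          exact ⟨b, hb, WithBot.coe_lt_coe.1 hab⟩
      refine ⟨⟨_, hR⟩, Ray.ext' fun p => ?_⟩
      induction p with
      | bot => exact ⟨fun _ => hbot, fun _ => m0 _⟩
      | coe a => exact m1 _ a

end Pool.Agent.H.MP_a0fd6e_gt
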