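import Pool.Agent.H.MP_a0fd6e_gt.A

set_option linter.unusedSimpArgs false
set_option linter.unusedVariables false

namespace Pool.Agent.H.MP_a0fd6e_gt
open Set Topology

universe u v

def RRay {S : Type u} (r : S → S → Prop) (R : Set S) : Prop :=
  R.Nonempty ∧ (∀ a ∈ R, ∀ b ∈ R, r a b ∨ r b a) ∧ (∀ a b, r a b → b ∈ R → a ∈ R) ∧
    ∀ a ∈ R, ∃ b ∈ R, r a b ∧ a ≠ b

lemma QR_of_rel {X : Type v} [TopologicalSpace X] {S : Type u} (r : S → S → Prop)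
    (h1 : ∀ a, r a a) (h2 : ∀ a b c, r a b → r b c → r a c) (h3 : ∀ a b, r a b → r b a → a = b)
    (h4 : ∀ a b t, r a t → r b t → r a b ∨ r b a) (h5 : WellFounded fun a b => r a b ∧ a ≠ b)
    (φ : X → Set S) (h6 : ∀ x, RRay r (φ x)) (h7 : ∀ t, IsClopen {x | t ∈ φ x})
    (h8 : Function.Injective φ) (h9 : ∀ R, RRay r R → ∃ x, φ x = R) : QR.{u} X := by
  let inst : PartialOrder S :=
    { le := r, le_refl := h1, le_trans := h2, le_antisymm := h3 }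
  have hlt : ∀ a b : S, a < b ↔ r a b ∧ a ≠ b := fun a b => lt_iff_le_and_ne
  have hr : ∀ R : Set S, IsRay R ↔ RRay r R := by
    intro R
    constructor
    · intro h
      refine ⟨h.1, fun a ha b hb => Ray.cmp ⟨R, h⟩ ha hb, fun a b k hb => Ray.low ⟨R, h⟩ k hb,
        fun a ha => ?_⟩
      obtain ⟨b, hb, k⟩ := h.2.2.2 a ha
      exact ⟨b, hb, (hlt a b).1 k⟩
    · intro h
      refine isRay_mk h.1 h.2.1 h.2.2.1 fun a ha => ?_
      obtain ⟨b, hb, k⟩ := h.2.2.2 a ha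
      exact ⟨b, hb, (hlt a b).2 k⟩
  refine ⟨S, inst, ⟨h4, ?_⟩, fun x => ⟨φ x, (hr _).2 (h6 x)⟩, cont_of _ h7, ?_, ?_⟩
  · exact Subrelation.wf (fun {a b} k => (hlt a b).1 k) h5
  · intro x y h
    exact h8 (congrArg Subtype.val h)
  · intro R
    obtain ⟨x, hx⟩ := h9 R.1 ((hr _).1 R.2)
    exact ⟨x, Subtype.ext hx⟩

variable {S : Type u} [PartialOrder S]

lemma Ray.sub {X Y : Ray S} (h : ∀ x ∈ X.1, ∃ y ∈ Y.1, x ≤ y) : ∀ x ∈ X.1, x ∈ Y.1 := by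
  intro x hx
  obtain ⟨y, hy, hxy⟩ := h x hx
  exact Y.low hxy hy

lemma Ray.ub2 (X : Ray S) {a b : S} (ha : a ∈ X.1) (hb : b ∈ X.1) :
    ∃ c ∈ X.1, a ≤ c ∧ b ≤ c := by
  rcases X.cmp ha hb with h | h
  · exact ⟨b, hb, h, le_rfl⟩
  · exact ⟨a, ha, le_rfl, h⟩

lemma clopen_hit (hS : Forest S) (J : Ray S) (D : Set S) (hD : ∀ x ∈ D, x ∈ J.1) :
    IsClopen {X : Ray S | ∃ j ∈ D, j ∈ X.1} := by
  rcases D.eq_empty_or_nonempty with rfl | hne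
  · simpa using isClopen_empty
  · have h1 := hS.2.min_mem D hne
    have : {X : Ray S | ∃ j ∈ D, j ∈ X.1} = {X : Ray S | hS.2.min D hne ∈ X.1} := by
      ext X
      constructor
      · rintro ⟨j, hj, hX⟩
        rcases J.cmp (hD _ h1) (hD _ hj) with h | h
        · exact X.low h hX
        · have := eq_of_le_of_not_lt h (hS.2.not_lt_min D hj)
          exact this ▸ hX
      · intro h; exact ⟨_, h1, h⟩
    rw [this]; exact clopen_mem _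

def pp (J : Ray S) : Set S := {x | x ∈ J.1 ∧ (Set.Iic x).Finite}
def AA (J : Ray S) : Set S := {x | ∃ j ∈ J.1, j ∉ pp J ∧ j ≤ x}

lemma pp_low {J : Ray S} {x y : S} (h : x ≤ y) (hy : y ∈ pp J) : x ∈ pp J :=
  ⟨J.low h hy.1, hy.2.subset (Iic_subset_Iic.2 h)⟩

lemma AA_up {J : Ray S} {x y : S} (h : x ≤ y) (hx : x ∈ AA J) : y ∈ AA J := by
  obtain ⟨j, h1, h2, h3⟩ := hx
  exact ⟨j, h1, h2, h3.trans h⟩

lemma pp_nA {J : Ray S} {x : S} (hx : x ∈ pp J) : x ∉ AA J := by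
  rintro ⟨j, h1, h2, h3⟩
  exact h2 (pp_low h3 hx)

lemma pp_ray (hS : Forest S) (J : Ray S) : IsRay (pp J) := by
  refine isRay_mk ?_ (fun a ha b hb => J.cmp ha.1 hb.1) (fun a b h hb => pp_low h hb) ?_
  · have h1 := hS.2.min_mem J.1 J.2.1
    refine ⟨_, h1, (finite_singleton (hS.2.min J.1 J.2.1)).subset fun y hy => ?_⟩
    exact eq_of_le_of_not_lt hy (hS.2.not_lt_min _ (J.low hy h1))
  · intro x hx
    have hne : {y | y ∈ J.1 ∧ x < y}.Nonempty := J.up hx.1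
    have h1 := hS.2.min_mem _ hne
    refine ⟨_, ⟨h1.1, (hx.2.insert (hS.2.min _ hne)).subset fun z hz => ?_⟩, h1.2⟩
    have hzJ := J.low hz h1.1
    rcases J.cmp hzJ hx.1 with h | h
    · exact Or.inr h
    · rcases h.eq_or_lt with h | h
      · exact Or.inr h.ge
      · exact Or.inl (eq_of_le_of_not_lt hz (hS.2.not_lt_min {y | y ∈ J.1 ∧ x < y} ⟨hzJ, h⟩))

def YY (J X : Ray S) : Set S := {x | x ∈ X.1 ∧ ∀ j ∈ pp J, j ∈ X.1 → j ≤ x}

lemma YY_ne (J X : Ray S) (h : X.1 ≠ pp J) : (YY J X).Nonempty := by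
  by_cases hp : pp J ⊆ X.1
  · have : ∃ x ∈ X.1, x ∉ pp J := by
      by_contra hc
      push Not at hc
      exact h (Subset.antisymm hc hp)
    obtain ⟨x, hx, hxp⟩ := this
    refine ⟨x, hx, fun j hj hjX => ?_⟩
    rcases X.cmp hjX hx with h1 | h1
    · exact h1
    · exact absurd (pp_low h1 hj) hxp
  · obtain ⟨y, hy, hyX⟩ := not_subset.1 hp
    obtain ⟨t, ht, h1⟩ := X.ub hy.2.toFinset
    refine ⟨t, ht, fun j hj hjX => h1 j ?_ hjX⟩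
    rcases J.cmp hj.1 hy.1 with h2 | h2
    · simpa using h2
    · exact absurd (X.low h2 hjX) hyX

def le' (J : Ray S) (x y : S) : Prop :=
  (x ∈ AA J ∧ x ≤ y) ∨ (x ∈ AA J ∧ x ∈ J.1 ∧ y ∉ AA J) ∨
    (x ∉ AA J ∧ y ∉ AA J ∧ x ≤ y ∧ ∀ j ∈ pp J, j ≤ y → j ≤ x)

lemma le'_refl (J : Ray S) (x : S) : le' J x x := by
  by_cases h : x ∈ AA J
  · exact Or.inl ⟨h, le_rfl⟩
  · exact Or.inr (Or.inr ⟨h, h, le_rfl, fun j _ h => h⟩)

lemma le'_trans (J : Ray S) (x y z : S) : le' J x y → le' J y z → le' J x z := by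
  rintro (⟨h1, h2⟩ | ⟨h1, h2, h3⟩ | ⟨h1, h2, h3, h4⟩)
    (⟨k1, k2⟩ | ⟨k1, k2, k3⟩ | ⟨k1, k2, k3, k4⟩)
  · exact Or.inl ⟨h1, h2.trans k2⟩
  · exact Or.inr (Or.inl ⟨h1, J.low h2 k2, k3⟩)
  · exact absurd (AA_up h2 h1) k1
  · exact absurd k1 h3
  · exact absurd k1 h3
  · exact Or.inr (Or.inl ⟨h1, h2, k2⟩)
  · exact absurd k1 h2
  · exact absurd k1 h2
  · exact Or.inr (Or.inr ⟨h1, k2, h3.trans k3, fun j hj h => h4 j hj (k4 j hj h)⟩)

lemma le'_anti (J : Ray S) (x y : S) : le' J x y → le' J y x → x = y := by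
  rintro (⟨h1, h2⟩ | ⟨h1, h2, h3⟩ | ⟨h1, h2, h3, h4⟩)
    (⟨k1, k2⟩ | ⟨k1, k2, k3⟩ | ⟨k1, k2, k3, k4⟩)
  · exact le_antisymm h2 k2
  · exact absurd h1 k3
  · exact absurd h1 k2
  · exact absurd k1 h3
  · exact absurd k1 h3
  · exact absurd h1 k2
  · exact absurd k1 h2
  · exact absurd k1 h2
  · exact le_antisymm h3 k3

lemma le'_A {J : Ray S} {x y : S} (h : le' J x y) (hy : y ∈ AA J) : x ∈ AA J ∧ x ≤ y := by
  rcases h with h | h | h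
  · exact h
  · exact absurd hy h.2.2
  · exact absurd hy h.2.1

lemma le'_N {J : Ray S} {x y : S} (h : le' J x y) (hy : y ∉ AA J) :
    (x ∈ AA J ∧ x ∈ J.1) ∨ (x ∉ AA J ∧ x ≤ y ∧ ∀ j ∈ pp J, j ≤ y → j ≤ x) := by
  rcases h with h | h | h
  · exact absurd (AA_up h.2 h.1) hy
  · exact Or.inl ⟨h.1, h.2.1⟩
  · exact Or.inr ⟨h.1, h.2.2⟩

lemma le'_N2 {J : Ray S} {x y : S} (h : le' J x y) (hx : x ∉ AA J) :
    y ∉ AA J ∧ x ≤ y ∧ ∀ j ∈ pp J, j ≤ y → j ≤ x := by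
  rcases h with h | h | h
  · exact absurd h.1 hx
  · exact absurd h.1 hx
  · exact h.2

lemma re_forest (hS : Forest S) (J : Ray S) :
    (∀ a b t, le' J a t → le' J b t → le' J a b ∨ le' J b a) ∧
      WellFounded fun a b => le' J a b ∧ a ≠ b := by
  constructor
  · intro a b t ha hb
    by_cases ht : (t : S) ∈ AA J
    · obtain ⟨a1, a2⟩ := le'_A ha ht
      obtain ⟨b1, b2⟩ := le'_A hb ht
      rcases hS.1 a b t a2 b2 with h | h
      · exact Or.inl (Or.inl ⟨a1, h⟩)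
      · exact Or.inr (Or.inl ⟨b1, h⟩)
    · rcases le'_N ha ht with ⟨a1, a2⟩ | ⟨a1, a2, a3⟩ <;>
        rcases le'_N hb ht with ⟨b1, b2⟩ | ⟨b1, b2, b3⟩
      · rcases J.cmp a2 b2 with h | h
        · exact Or.inl (Or.inl ⟨a1, h⟩)
        · exact Or.inr (Or.inl ⟨b1, h⟩)
      · exact Or.inl (Or.inr (Or.inl ⟨a1, a2, b1⟩))
      · exact Or.inr (Or.inr (Or.inl ⟨b1, b2, a1⟩))
      · rcases hS.1 a b t a2 b2 with h | h
        · exact Or.inl (Or.inr (Or.inr ⟨a1, b1, h, fun j hj k => a3 j hj (k.trans b2)⟩))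
        · exact Or.inr (Or.inr (Or.inr ⟨b1, a1, h, fun j hj k => b3 j hj (k.trans a2)⟩))
  · have h1 : ∀ x : S, x ∈ AA J → Acc (fun a b => le' J a b ∧ a ≠ b) x := by
      intro x
      induction x using hS.2.induction with
      | _ x ih =>
        intro hx
        refine ⟨_, fun y hy => ?_⟩
        obtain ⟨k1, k2⟩ := hy
        obtain ⟨k3, k4⟩ := le'_A k1 hx
        exact ih y (lt_of_le_of_ne k4 k2) k3
    have h2 : ∀ x : S, Acc (fun a b => le' J a b ∧ a ≠ b) x := by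
      intro x
      induction x using hS.2.induction with
      | _ x ih =>
        refine ⟨_, fun y hy => ?_⟩
        obtain ⟨k1, k2⟩ := hy
        by_cases hA : (y : S) ∈ AA J
        · exact h1 y hA
        · exact ih y (lt_of_le_of_ne (le'_N2 k1 hA).2.1 k2)
    exact ⟨h2⟩

def HH (J X : Ray S) : Prop := ∃ a ∈ AA J, a ∈ X.1

def ph (J X : Ray S) : Set S :=
  {x | (x ∈ AA J ∧ x ∈ X.1) ∨ (¬ HH J X ∧ ((x ∈ AA J ∧ x ∈ J.1) ∨ x ∈ YY J X))}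

lemma ph_H {J X : Ray S} (h : HH J X) (x : S) : x ∈ ph J X ↔ x ∈ AA J ∧ x ∈ X.1 :=
  ⟨fun k => k.elim id fun k => absurd h k.1, Or.inl⟩

lemma ph_N {J X : Ray S} (h : ¬ HH J X) (x : S) :
    x ∈ ph J X ↔ (x ∈ AA J ∧ x ∈ J.1) ∨ x ∈ YY J X :=
  ⟨fun k => k.elim (fun k => absurd ⟨x, k.1, k.2⟩ h) fun k => k.2, fun k => Or.inr ⟨h, k⟩⟩

lemma YY_nA {J X : Ray S} (h : ¬ HH J X) {x : S} (hx : x ∈ YY J X) : x ∉ AA J :=
  fun k => h ⟨x, k, hx.1⟩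

lemma ph_ray (J X : Ray S) (hX : X ≠ J) : RRay (le' J) (ph J X) := by
  by_cases h : HH J X
  · refine ⟨?_, ?_, ?_, ?_⟩
    · obtain ⟨a, h1, h2⟩ := h
      exact ⟨a, Or.inl ⟨h1, h2⟩⟩
    · intro a ha b hb
      obtain ⟨a1, a2⟩ := (ph_H h a).1 ha
      obtain ⟨b1, b2⟩ := (ph_H h b).1 hb
      rcases X.cmp a2 b2 with k | k
      · exact Or.inl (Or.inl ⟨a1, k⟩)
      · exact Or.inr (Or.inl ⟨b1, k⟩)
    · intro a b hab hb
      obtain ⟨b1, b2⟩ := (ph_H h b).1 hb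
      obtain ⟨k1, k2⟩ := le'_A hab b1
      exact Or.inl ⟨k1, X.low k2 b2⟩
    · intro a ha
      obtain ⟨a1, a2⟩ := (ph_H h a).1 ha
      obtain ⟨b, hb, hab⟩ := X.up a2
      exact ⟨b, Or.inl ⟨AA_up hab.le a1, hb⟩, ⟨Or.inl ⟨a1, hab.le⟩, hab.ne⟩⟩
  · refine ⟨?_, ?_, ?_, ?_⟩
    · by_cases hp : X.1 = pp J
      · have : ∃ j ∈ J.1, j ∉ pp J := by
          by_contra hc
          push Not at hc
          exact hX (Ray.ext' fun x => ⟨fun k => (hp ▸ k : x ∈ pp J).1, fun k => hp ▸ hc x k⟩)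
        obtain ⟨j, h1, h2⟩ := this
        exact ⟨j, (ph_N h j).2 (Or.inl ⟨⟨j, h1, h2, le_rfl⟩, h1⟩)⟩
      · obtain ⟨y, hy⟩ := YY_ne J X hp
        exact ⟨y, (ph_N h y).2 (Or.inr hy)⟩
    · intro a ha b hb
      rcases (ph_N h a).1 ha with ⟨a1, a2⟩ | a1 <;> rcases (ph_N h b).1 hb with ⟨b1, b2⟩ | b1
      · rcases J.cmp a2 b2 with k | k
        · exact Or.inl (Or.inl ⟨a1, k⟩)
        · exact Or.inr (Or.inl ⟨b1, k⟩)
      · exact Or.inl (Or.inr (Or.inl ⟨a1, a2, YY_nA h b1⟩))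
      · exact Or.inr (Or.inr (Or.inl ⟨b1, b2, YY_nA h a1⟩))
      · rcases X.cmp a1.1 b1.1 with k | k
        · exact Or.inl (Or.inr (Or.inr ⟨YY_nA h a1, YY_nA h b1, k,
            fun j hj k' => a1.2 j hj (X.low k' b1.1)⟩))
        · exact Or.inr (Or.inr (Or.inr ⟨YY_nA h b1, YY_nA h a1, k,
            fun j hj k' => b1.2 j hj (X.low k' a1.1)⟩))
    · intro a b hab hb
      rcases (ph_N h b).1 hb with ⟨b1, b2⟩ | b1
      · obtain ⟨k1, k2⟩ := le'_A hab b1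
        exact (ph_N h a).2 (Or.inl ⟨k1, J.low k2 b2⟩)
      · rcases le'_N hab (YY_nA h b1) with k | ⟨k1, k2, k3⟩
        · exact (ph_N h a).2 (Or.inl k)
        · exact (ph_N h a).2 (Or.inr ⟨X.low k2 b1.1, fun j hj hjX => k3 j hj (b1.2 j hj hjX)⟩)
    · intro a ha
      rcases (ph_N h a).1 ha with ⟨a1, a2⟩ | a1
      · obtain ⟨b, hb, hab⟩ := J.up a2
        exact ⟨b, (ph_N h b).2 (Or.inl ⟨AA_up hab.le a1, hb⟩),
          ⟨Or.inl ⟨a1, hab.le⟩, hab.ne⟩⟩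
      · obtain ⟨b, hb, hab⟩ := X.up a1.1
        have b1 : b ∈ YY J X := ⟨hb, fun j hj hjX => (a1.2 j hj hjX).trans hab.le⟩
        exact ⟨b, (ph_N h b).2 (Or.inr b1), ⟨Or.inr (Or.inr ⟨YY_nA h a1, YY_nA h b1,
          hab.le, fun j hj k' => a1.2 j hj (X.low k' hb)⟩), hab.ne⟩⟩

lemma ph_clopen (hS : Forest S) (J : Ray S) (x : S) : IsClopen {X : Ray S | x ∈ ph J X} := by
  have hH : IsClopen {X : Ray S | HH J X} := by
    have := clopen_hit hS J {j | j ∈ J.1 ∧ j ∉ pp J} fun x hx => hx.1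
    convert this using 1
    ext X
    constructor
    · rintro ⟨a, ⟨j, h1, h2, h3⟩, ha⟩
      exact ⟨j, ⟨h1, h2⟩, X.low h3 ha⟩
    · rintro ⟨j, ⟨h1, h2⟩, h3⟩
      exact ⟨j, ⟨j, h1, h2, le_rfl⟩, h3⟩
  have hY : IsClopen {X : Ray S | x ∈ YY J X} := by
    have := (clopen_mem x).inter
      (clopen_hit hS J {j | j ∈ pp J ∧ ¬ j ≤ x} fun x hx => hx.1.1).compl
    convert this using 1
    ext X
    constructor
    · rintro ⟨h1, h2⟩
      exact ⟨h1, fun ⟨j, ⟨k1, k2⟩, k3⟩ => k2 (h2 j k1 k3)⟩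
    · rintro ⟨h1, h2⟩
      refine ⟨h1, fun j k1 k3 => ?_⟩
      by_contra k2
      exact h2 ⟨j, ⟨k1, k2⟩, k3⟩
  have hc : ∀ P : Prop, IsClopen {X : Ray S | P} := by
    intro P
    by_cases hP : P
    · simpa [hP] using isClopen_univ
    · simpa [hP] using isClopen_empty
  exact ((hc (x ∈ AA J)).inter (clopen_mem x)).union
    (hH.compl.inter ((hc (x ∈ AA J ∧ x ∈ J.1)).union hY))

lemma eq_of_A {J X Y : Ray S} (hX : HH J X) (h : ∀ x ∈ AA J, x ∈ X.1 → x ∈ Y.1) :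
    ∀ x ∈ X.1, x ∈ Y.1 := by
  obtain ⟨a, h1, h2⟩ := hX
  refine Ray.sub fun x hx => ?_
  obtain ⟨c, hc, k1, k2⟩ := X.ub2 hx h2
  exact ⟨c, h c (AA_up k2 h1) hc, k1⟩

lemma ph_inj {J X Y : Ray S} (hX : X ≠ J) (hY : Y ≠ J) (h : ph J X = ph J Y) : X = Y := by
  have mix : ∀ {X Y : Ray S}, X ≠ J → ph J X = ph J Y → HH J X → HH J Y := by
    intro X Y hX h h1
    by_contra h2
    have k1 : ∀ x ∈ AA J, x ∈ X.1 → x ∈ J.1 := by
      intro x a1 a2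
      rcases (ph_N h2 x).1 (h ▸ (ph_H h1 x).2 ⟨a1, a2⟩) with k | k
      · exact k.2
      · exact absurd a1 (YY_nA h2 k)
    have k2 : ∀ x ∈ AA J, x ∈ J.1 → x ∈ X.1 := by
      intro x a1 a2
      exact ((ph_H h1 x).1 (h.symm ▸ (ph_N h2 x).2 (Or.inl ⟨a1, a2⟩))).2
    have hJ : HH J J := by
      obtain ⟨a, a1, a2⟩ := h1
      exact ⟨a, a1, k1 a a1 a2⟩
    exact hX (Ray.ext' fun x => ⟨eq_of_A h1 k1 x, eq_of_A hJ k2 x⟩)
  by_cases h1 : HH J X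
  · have h2 := mix hX h h1
    refine Ray.ext' fun x => ⟨eq_of_A h1 (fun x a1 a2 => ?_) x, eq_of_A h2 (fun x a1 a2 => ?_) x⟩
    · exact ((ph_H h2 x).1 (h ▸ (ph_H h1 x).2 ⟨a1, a2⟩)).2
    · exact ((ph_H h1 x).1 (h.symm ▸ (ph_H h2 x).2 ⟨a1, a2⟩)).2
  · have h2 : ¬ HH J Y := fun k => h1 (mix hY h.symm k)
    have key : ∀ {X Y : Ray S}, ¬ HH J X → ¬ HH J Y → ph J X = ph J Y →
        ∀ x ∈ YY J X, x ∈ YY J Y := by
      intro X Y h1 h2 h x hx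
      rcases (ph_N h2 x).1 (h ▸ (ph_N h1 x).2 (Or.inr hx)) with k | k
      · exact absurd k.1 (YY_nA h1 hx)
      · exact k
    have key2 : ∀ {X Y : Ray S}, (YY J X).Nonempty → (∀ x ∈ YY J X, x ∈ YY J Y) →
        ∀ x ∈ X.1, x ∈ Y.1 := by
      intro X Y ⟨y, hy⟩ h
      refine Ray.sub fun x hx => ?_
      obtain ⟨c, hc, k1, k2⟩ := X.ub2 hx hy.1
      exact ⟨c, (h c ⟨hc, fun j hj hjX => (hy.2 j hj hjX).trans k2⟩).1, k1⟩
    by_cases hne : (YY J X).Nonempty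
    · have hne2 : (YY J Y).Nonempty := hne.mono (key h1 h2 h)
      exact Ray.ext' fun x => ⟨key2 hne (key h1 h2 h) x, key2 hne2 (key h2 h1 h.symm) x⟩
    · have hne2 : ¬ (YY J Y).Nonempty := fun k => hne (k.mono (key h2 h1 h.symm))
      have e1 : X.1 = pp J := by by_contra k; exact hne (YY_ne J X k)
      have e2 : Y.1 = pp J := by by_contra k; exact hne2 (YY_ne J Y k)
      exact Subtype.ext (e1.trans e2.symm)

lemma down_ray (E : Set S) (hS : Forest S) (h0 : E.Nonempty) (h1 : ∀ a ∈ E, ∀ b ∈ E, a ≤ b ∨ b ≤ a)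
    (h3 : ∀ a ∈ E, ∃ b ∈ E, a < b) : IsRay {x | ∃ r ∈ E, x ≤ r} := by
  refine isRay_mk ?_ ?_ ?_ ?_
  · obtain ⟨a, ha⟩ := h0; exact ⟨a, a, ha, le_rfl⟩
  · rintro a ⟨r, hr, k1⟩ b ⟨s, hs, k2⟩
    rcases h1 r hr s hs with k | k
    · exact hS.1 a b s (k1.trans k) k2
    · exact hS.1 a b r k1 (k2.trans k)
  · rintro a b hab ⟨s, hs, k2⟩
    exact ⟨s, hs, hab.trans k2⟩
  · rintro a ⟨r, hr, k1⟩
    obtain ⟨b, hb, k⟩ := h3 r hr
    exact ⟨b, ⟨b, hb, le_rfl⟩, k1.trans_lt k⟩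

lemma ph_surj (hS : Forest S) (J : Ray S) (R : Set S) (hRR : RRay (le' J) R) :
    ∃ X : Ray S, X ≠ J ∧ ph J X = R := by
  have cmp : ∀ a b : S, a ∈ R → b ∈ R → le' J a b ∨ le' J b a :=
    fun a b ha hb => hRR.2.1 a ha b hb
  have low : ∀ a b : S, le' J a b → b ∈ R → a ∈ R := hRR.2.2.1
  have up : ∀ a : S, a ∈ R → ∃ b : S, b ∈ R ∧ le' J a b ∧ a ≠ b := hRR.2.2.2
  by_cases hA : ∀ r : S, r ∈ R → r ∈ AA J
  · have hR : IsRay {x : S | ∃ r ∈ {r : S | r ∈ R}, x ≤ r} := by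
      refine down_ray _ hS hRR.1 ?_ ?_
      · intro a ha b hb
        rcases cmp a b ha hb with k | k
        · exact Or.inl (le'_A k (hA b hb)).2
        · exact Or.inr (le'_A k (hA a ha)).2
      · intro a ha
        obtain ⟨b, hb, k1, k2⟩ := up a ha
        exact ⟨b, hb, lt_of_le_of_ne (le'_A k1 (hA b hb)).2 k2⟩
    have hH : HH J ⟨_, hR⟩ := by
      obtain ⟨a, ha⟩ := hRR.1
      exact ⟨a, hA a ha, a, ha, le_rfl⟩
    have e : ∀ x : S, (x ∈ AA J ∧ x ∈ (⟨_, hR⟩ : Ray S).1) ↔ x ∈ R := by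
      intro x
      constructor
      · rintro ⟨k1, r, k2, k3⟩
        exact low x r (Or.inl ⟨k1, k3⟩) k2
      · intro hx; exact ⟨hA x hx, x, hx, le_rfl⟩
    by_cases hJ : (⟨_, hR⟩ : Ray S) = J
    · rw [hJ] at hH e
      have hN : ¬ HH J ⟨_, pp_ray hS J⟩ := fun ⟨a, a1, a2⟩ => pp_nA a2 a1
      refine ⟨⟨_, pp_ray hS J⟩, fun k => hN (by rw [k]; exact hH), Set.ext fun x => ?_⟩
      rw [ph_N hN, ← e]
      refine ⟨fun k => k.elim id fun k => ?_, Or.inl⟩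
      obtain ⟨b, hb, hab⟩ := (pp_ray hS J).2.2.2 x k.1
      exact absurd (k.2 b hb hb) hab.not_ge
    · exact ⟨_, hJ, Set.ext fun x => (ph_H hH x).trans (e x)⟩
  · push Not at hA
    obtain ⟨r, hr, hrA⟩ := hA
    have hR : IsRay {x : S | ∃ r ∈ {r : S | r ∈ R ∧ r ∉ AA J}, x ≤ r} := by
      refine down_ray _ hS ⟨r, hr, hrA⟩ ?_ ?_
      · intro a ha b hb
        rcases cmp a b ha.1 hb.1 with k | k
        · exact Or.inl (le'_N2 k ha.2).2.1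
        · exact Or.inr (le'_N2 k hb.2).2.1
      · intro a ha
        obtain ⟨b, hb, k1, k2⟩ := up a ha.1
        exact ⟨b, ⟨hb, (le'_N2 k1 ha.2).1⟩, lt_of_le_of_ne (le'_N2 k1 ha.2).2.1 k2⟩
    have hN : ¬ HH J ⟨_, hR⟩ := by
      rintro ⟨a, a1, s, ⟨s1, s2⟩, k⟩
      exact s2 (AA_up k a1)
    have hY : ∀ s : S, s ∈ R → s ∉ AA J → s ∈ YY J ⟨_, hR⟩ := by
      intro s s1 s2
      refine ⟨⟨s, ⟨s1, s2⟩, le_rfl⟩, ?_⟩
      rintro j hj ⟨s', ⟨t1, t2⟩, k⟩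
      rcases cmp s s' s1 t1 with k' | k'
      · exact (le'_N2 k' s2).2.2 j hj k
      · exact k.trans (le'_N2 k' t2).2.1
    refine ⟨⟨_, hR⟩, fun hJ => ?_, Set.ext fun x => ?_⟩
    · have k := hY r hr hrA
      rw [hJ] at k hN
      obtain ⟨b, hb, hab⟩ := J.up k.1
      have : b ∈ pp J := by
        by_contra hc
        exact hN ⟨b, ⟨b, hb, hc, le_rfl⟩, hb⟩
      exact absurd (k.2 b this hb) hab.not_ge
    · rw [ph_N hN]
      constructor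
      · rintro (⟨k1, k2⟩ | k)
        · exact low x r (Or.inr (Or.inl ⟨k1, k2, hrA⟩)) hr
        · have hxA := YY_nA hN k
          obtain ⟨⟨s, ⟨s1, s2⟩, k1⟩, k2⟩ := k
          exact low x s (Or.inr (Or.inr ⟨hxA, s2, k1,
            fun j hj k' => k2 j hj ⟨s, ⟨s1, s2⟩, k'⟩⟩)) s1
      · intro hx
        by_cases hxA : x ∈ AA J
        · left
          rcases cmp x r hx hr with k | k
          · rcases le'_N k hrA with k | k
            · exact k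
            · exact absurd hxA k.1
          · exact absurd hxA (le'_N2 k hrA).1
        · exact Or.inr (hY x hx hxA)

lemma QR_punct (hS : Forest S) (J : Ray S) : QR.{u} {X : Ray S // X ≠ J} := by
  refine QR_of_rel (le' J) (le'_refl J) (le'_trans J) (le'_anti J) (re_forest hS J).1
    (re_forest hS J).2 (fun X => ph J X.1) (fun X => ph_ray J X.1 X.2)
    (fun t => (ph_clopen hS J t).preimage continuous_subtype_val) ?_ ?_
  · intro X Y h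
    exact Subtype.ext (ph_inj X.2 Y.2 h)
  · intro R hR
    obtain ⟨X, h1, h2⟩ := ph_surj hS J R hR
    exact ⟨⟨X, h1⟩, h2⟩

end Pool.Agent.H.MP_a0fd6e_gt
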