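import Pool.Agent.H.MP_a0fd6e_gt.B

set_option linter.unusedSimpArgs false
set_option linter.unusedVariables false

namespace Pool.Agent.H.MP_a0fd6e_gt
open Set Topology

universe u v

variable {T : Type u} [PartialOrder T]

lemma piece (hT : Forest T) (u : T) (G : Set T) (hG : ∀ a b, a ≤ b → a ∈ G → b ∈ G) :
    ∃ (N : Type u) (_ : PartialOrder N), Forest N ∧
      ∃ φ : {X : Ray T // u ∈ X.1 ∧ ∀ x ∈ X.1, x ∉ G} → Ray N,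
        Continuous φ ∧ Function.Bijective φ := by
  refine ⟨{x : T // u ≤ x ∧ x ∉ G}, inferInstance,
    ⟨fun a b t h1 h2 => hT.1 a.1 b.1 t.1 h1 h2, InvImage.wf Subtype.val hT.2⟩, ?_⟩
  have hr : ∀ X : {X : Ray T // u ∈ X.1 ∧ ∀ x ∈ X.1, x ∉ G},
      IsRay {x : {x : T // u ≤ x ∧ x ∉ G} | x.1 ∈ X.1.1} := by
    rintro ⟨X, h1, h2⟩
    refine isRay_mk ⟨⟨u, le_rfl, h2 u h1⟩, h1⟩ (fun a ha b hb => X.cmp ha hb)
      (fun a b h hb => X.low h hb) fun a ha => ?_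
    obtain ⟨b, hb, k⟩ := X.up ha
    exact ⟨⟨b, a.2.1.trans k.le, h2 b hb⟩, hb, k⟩
  refine ⟨fun X => ⟨_, hr X⟩, cont_of _ fun t => (clopen_mem t.1).preimage continuous_subtype_val,
    ?_, ?_⟩
  · have key : ∀ X Y : {X : Ray T // u ∈ X.1 ∧ ∀ x ∈ X.1, x ∉ G},
        (⟨_, hr X⟩ : Ray {x : T // u ≤ x ∧ x ∉ G}) = ⟨_, hr Y⟩ → ∀ x ∈ X.1.1, x ∈ Y.1.1 := by
      intro X Y h
      have hs := congrArg Subtype.val h
      refine Ray.sub fun x hx => ?_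
      obtain ⟨c, hc, k1, k2⟩ := X.1.ub2 hx X.2.1
      refine ⟨c, ?_, k1⟩
      have : (⟨c, k2, X.2.2 c hc⟩ : {x : T // u ≤ x ∧ x ∉ G}) ∈
          {x : {x : T // u ≤ x ∧ x ∉ G} | x.1 ∈ X.1.1} := hc
      dsimp only at hs
      rw [hs] at this
      exact this
    intro X Y h
    exact Subtype.ext (Ray.ext' fun x => ⟨key X Y h x, key Y X h.symm x⟩)
  · intro R
    have hR : IsRay {x : T | ∃ r ∈ Subtype.val '' R.1, x ≤ r} := by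
      refine down_ray _ hT (R.2.1.image _) ?_ ?_
      · rintro _ ⟨a, ha, rfl⟩ _ ⟨b, hb, rfl⟩
        exact R.cmp ha hb
      · rintro _ ⟨a, ha, rfl⟩
        obtain ⟨b, hb, k⟩ := R.up ha
        exact ⟨b.1, ⟨b, hb, rfl⟩, k⟩
    refine ⟨⟨⟨_, hR⟩, ?_, ?_⟩, Ray.ext' fun x => ?_⟩
    · obtain ⟨a, ha⟩ := R.2.1
      exact ⟨a.1, ⟨a, ha, rfl⟩, a.2.1⟩
    · rintro x ⟨_, ⟨a, ha, rfl⟩, k⟩ hx
      exact a.2.2 (hG _ _ k hx)
    · constructor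
      · rintro ⟨_, ⟨a, ha, rfl⟩, k⟩
        exact R.low k ha
      · intro hx
        exact ⟨x.1, ⟨x, hx, rfl⟩, le_rfl⟩

def BB (U : Set (Ray T)) (X : Ray T) (u : T) : Prop :=
  u ∈ X.1 ∧ ∀ Z1 ∉ U, ∀ Z2 ∉ U, u ∈ Z1.1 → u ∈ Z2.1 → ∀ x ∈ X.1, x ∈ Z1.1 → x ∈ Z2.1

lemma BB_up {U : Set (Ray T)} {X : Ray T} {u w : T} (h : BB U X u) (huw : u ≤ w) (hw : w ∈ X.1) :
    BB U X w :=
  ⟨hw, fun Z1 h1 Z2 h2 k1 k2 => h.2 Z1 h1 Z2 h2 (Z1.low huw k1) (Z2.low huw k2)⟩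

lemma BB_tr {U : Set (Ray T)} {X Y : Ray T} {c w : T} (hc : c ∈ X.1) (hw : w ≤ c)
    (h1 : BB U X w) (h2 : BB U Y c) : BB U Y w := by
  refine ⟨Y.low hw h2.1, fun Z1 k1 Z2 k2 l1 l2 y hy hyZ => ?_⟩
  by_cases c1 : c ∈ Z1.1
  · exact h2.2 Z1 k1 Z2 k2 c1 (h1.2 Z1 k1 Z2 k2 l1 l2 c hc c1) y hy hyZ
  · rcases Y.cmp hy h2.1 with k | k
    · exact h1.2 Z1 k1 Z2 k2 l1 l2 y (X.low k hc) hyZ
    · exact absurd (Z1.low k hyZ) c1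

lemma BB_ne {U : Set (Ray T)} (hU : IsOpen U) {X : Ray T} (hX : X ∈ U) :
    {u | BB U X u}.Nonempty := by
  classical
  obtain ⟨t, ht, F, h1, h2⟩ := open_basis hU hX
  have : ∀ s : T × T, ∃ x : T, (∃ x ∈ X.1, x ≤ s.1 ∧ ¬ x ≤ s.2) →
      (x ∈ X.1 ∧ x ≤ s.1 ∧ ¬ x ≤ s.2) := by
    intro s
    by_cases h : ∃ x ∈ X.1, x ≤ s.1 ∧ ¬ x ≤ s.2
    · obtain ⟨x, hx⟩ := h; exact ⟨x, fun _ => hx⟩
    · exact ⟨t, fun k => absurd k h⟩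
  choose w hw using this
  obtain ⟨u, hu, h3⟩ := X.ub (insert t ((F ×ˢ F).image w))
  have htu : t ≤ u := h3 t (Finset.mem_insert_self _ _) ht
  have hs : ∀ Z ∉ U, u ∈ Z.1 → ∃ s ∈ F, s ∈ Z.1 ∧ ∀ x ∈ X.1, x ∈ Z.1 → x ≤ s := by
    intro Z hZ huZ
    have : ∃ s ∈ F, s ∈ Z.1 := by
      by_contra hc
      push Not at hc
      exact hZ (h2 Z (Z.low htu huZ) hc)
    obtain ⟨s, s1, s2⟩ := this
    refine ⟨s, s1, s2, fun x hx hxZ => ?_⟩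
    rcases Z.cmp hxZ s2 with k | k
    · exact k
    · exact absurd (X.low k hx) (h1 s s1)
  refine ⟨u, hu, fun Z1 k1 Z2 k2 l1 l2 x hx hxZ => ?_⟩
  obtain ⟨s1, a1, a2, a3⟩ := hs Z1 k1 l1
  obtain ⟨s2, b1, b2, b3⟩ := hs Z2 k2 l2
  by_contra hc
  have h4 := hw (s1, s2) ⟨x, hx, a3 x hx hxZ, fun k => hc (Z2.low k b2)⟩
  have h5 : w (s1, s2) ≤ u := h3 _ (Finset.mem_insert_of_mem
    (Finset.mem_image_of_mem w (Finset.mem_product.2 ⟨a1, b1⟩))) h4.1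
  exact h4.2.2 (b3 _ h4.1 (Z2.low h5 l2))

lemma BB_nbhd (hT : Forest T) {U : Set (Ray T)} (hU : IsOpen U) {X : Ray T} (hX : X ∈ U) {u : T}
    (hu : BB U X u) : ∃ c ∈ X.1, u ≤ c ∧ ∃ F : Finset T, (∀ s ∈ F, s ∉ X.1) ∧
      ∀ Y : Ray T, c ∈ Y.1 → (∀ s ∈ F, s ∉ Y.1) → Y ∈ U ∧ BB U Y c := by
  classical
  obtain ⟨t, ht, F, h1, h2⟩ := open_basis hU hX
  have hc : ∃ c ∈ X.1, t ≤ c ∧ u ≤ c ∧ ∀ Z ∉ U, c ∈ Z.1 → ∀ x ∈ X.1, x ∈ Z.1 := by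
    obtain ⟨c, hc, k1, k2⟩ := X.ub2 ht hu.1
    by_cases h : ∃ Z ∉ U, u ∈ Z.1 ∧ ∃ x ∈ X.1, x ∉ Z.1
    · obtain ⟨Z0, z1, z2, x0, z3, z4⟩ := h
      obtain ⟨c', hc', l1, l2⟩ := X.ub2 hc z3
      refine ⟨c', hc', k1.trans l1, k2.trans l1, fun Z hZ hcZ => ?_⟩
      exact absurd (hu.2 Z hZ Z0 z1 (Z.low (k2.trans l1) hcZ) z2 x0 z3 (Z.low l2 hcZ)) z4
    · push Not at h
      exact ⟨c, hc, k1, k2, fun Z hZ hcZ => h Z hZ (Z.low k2 hcZ)⟩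
  obtain ⟨c, c1, c2, c3, c4⟩ := hc
  have : ∀ s : T, ∃ m : T, s ∉ X.1 → (m ≤ s ∧ m ∉ X.1 ∧ ∀ y, y < m → y ∈ X.1) := by
    intro s
    by_cases hs : s ∈ X.1
    · exact ⟨s, fun k => absurd hs k⟩
    · have hne : {y | y ≤ s ∧ y ∉ X.1}.Nonempty := ⟨s, le_rfl, hs⟩
      have h := hT.2.min_mem _ hne
      refine ⟨_, fun _ => ⟨h.1, h.2, fun y hy => ?_⟩⟩
      by_contra k
      exact hT.2.not_lt_min {y | y ≤ s ∧ y ∉ X.1} ⟨hy.le.trans h.1, k⟩ hy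
  choose m hm using this
  refine ⟨c, c1, c3, F.image m, ?_, fun Y hY hF => ⟨?_, hY, ?_⟩⟩
  · intro s hs
    obtain ⟨s, k, rfl⟩ := Finset.mem_image.1 hs
    exact (hm s (h1 s k)).2.1
  · exact h2 Y (Y.low c2 hY) fun s hs k =>
      hF _ (Finset.mem_image_of_mem m hs) (Y.low (hm s (h1 s hs)).1 k)
  · intro Z1 k1 Z2 k2 l1 l2 y hy hyZ
    refine c4 Z2 k2 l2 y ?_
    have : ∃ s ∈ F, s ∈ Z1.1 := by
      by_contra hc
      push Not at hc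
      exact k1 (h2 Z1 (Z1.low c2 l1) hc)
    obtain ⟨s, s1, s2⟩ := this
    obtain ⟨m1, m2, m3⟩ := hm s (h1 s s1)
    have hmY := hF _ (Finset.mem_image_of_mem m s1)
    rcases Z1.cmp hyZ (Z1.low m1 s2) with k | k
    · rcases k.eq_or_lt with k | k
      · exact absurd (k ▸ hy) hmY
      · exact m3 y k
    · exact absurd (Y.low k hy) hmY

theorem main (hT : Forest T) (U : Set (Ray T)) (hU : IsOpen U) : QR.{u} U := by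
  let g : U → T := fun X => hT.2.min _ (BB_ne hU X.2)
  have g1 : ∀ X : U, BB U X.1 (g X) := fun X => hT.2.min_mem _ (BB_ne hU X.2)
  have g2 : ∀ (X : U) w, BB U X.1 w → g X ≤ w := by
    intro X w hw
    rcases X.1.cmp (g1 X).1 hw.1 with k | k
    · exact k
    · exact (eq_of_le_of_not_lt k (hT.2.not_lt_min {u | BB U X.1 u} hw)).ge
  have g3 : ∀ (X Y : U) c, g X ≤ c → c ∈ X.1.1 → BB U Y.1 c → g Y = g X := by
    intro X Y c k1 k2 k3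
    have a1 : g Y ≤ g X := g2 Y _ (BB_tr k2 k1 (g1 X) k3)
    have a2 : g X ≤ g Y := g2 X _ (BB_tr k3.1 (a1.trans k1) (g1 Y) (BB_up (g1 X) k1 k2))
    exact le_antisymm a1 a2
  refine QR.sum g (fun u => ?_) fun u => ?_
  · have : IsOpen {X : Ray T | ∃ h : X ∈ U, g ⟨X, h⟩ = u} := by
      refine open_of_basis ?_
      rintro X ⟨hX, rfl⟩
      obtain ⟨c, c1, c2, F, f1, f2⟩ := BB_nbhd hT hU hX (g1 ⟨X, hX⟩)
      refine ⟨c, c1, F, f1, fun Y k1 k2 => ?_⟩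
      obtain ⟨l1, l2⟩ := f2 Y k1 k2
      exact ⟨l1, g3 ⟨X, hX⟩ ⟨Y, l1⟩ c c2 c1 l2⟩
    convert this.preimage (continuous_subtype_val (p := (· ∈ U))) using 1
    ext X
    exact ⟨fun h => ⟨X.2, h⟩, fun ⟨_, h⟩ => h⟩
  · by_cases hne : ∃ X0, g X0 = u
    · obtain ⟨X0, rfl⟩ := hne
      let G : Set T := {x | ∃ y ≤ x, ∃ Z1 ∉ U, ∃ Z2 ∉ U,
        g X0 ∈ Z1.1 ∧ g X0 ∈ Z2.1 ∧ y ∈ Z1.1 ∧ y ∉ Z2.1}
      have hG : ∀ a b, a ≤ b → a ∈ G → b ∈ G := fun a b h ⟨y, k1, k2⟩ => ⟨y, k1.trans h, k2⟩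
      have hB : ∀ X : Ray T, BB U X (g X0) ↔ (g X0 ∈ X.1 ∧ ∀ x ∈ X.1, x ∉ G) := by
        intro X
        refine and_congr_right fun h => ⟨?_, ?_⟩
        · rintro k x hx ⟨y, k1, Z1, a1, Z2, a2, a3, a4, a5, a6⟩
          exact a6 (k Z1 a1 Z2 a2 a3 a4 y (X.low k1 hx) a5)
        · intro k Z1 a1 Z2 a2 a3 a4 x hx a5
          by_contra a6
          exact k x hx ⟨x, le_rfl, Z1, a1, Z2, a2, a3, a4, a5, a6⟩
      have hf : ∀ X : U, g X = g X0 ↔ (g X0 ∈ X.1.1 ∧ ∀ x ∈ X.1.1, x ∉ G) := by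
        intro X
        rw [← hB]
        exact ⟨fun h => h ▸ g1 X, fun h => g3 X0 X _ le_rfl (g1 X0).1 h⟩
      obtain ⟨N, inst, hN, φ, hφ, hb⟩ := piece hT (g X0) G hG
      let e : {X : U | g X = g X0} → {X : Ray T // g X0 ∈ X.1 ∧ ∀ x ∈ X.1, x ∉ G} :=
        fun X => ⟨X.1.1, (hf X.1).1 X.2⟩
      have he : Continuous e :=
        (continuous_subtype_val.comp continuous_subtype_val).subtype_mk _
      have hi : Function.Injective e := fun X Y h =>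
        Subtype.ext (Subtype.ext (show (e X).1 = (e Y).1 from congrArg Subtype.val h))
      have hs : ∀ Y : {X : Ray T // g X0 ∈ X.1 ∧ ∀ x ∈ X.1, x ∉ G}, Y.1 ∈ U → ∃ X, e X = Y :=
        fun Y h => ⟨⟨⟨Y.1, h⟩, (hf ⟨Y.1, h⟩).2 Y.2⟩, rfl⟩
      by_cases hJ : ∃ J : {X : Ray T // g X0 ∈ X.1 ∧ ∀ x ∈ X.1, x ∉ G}, J.1 ∉ U
      · obtain ⟨J, hJ⟩ := hJ
        have hne : ∀ X, φ (e X) ≠ φ J := by
          intro X h
          have := hb.1 h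
          exact hJ (this ▸ X.1.2)
        refine (QR_punct hN (φ J)).comp (fun X => ⟨φ (e X), hne X⟩)
          ((hφ.comp he).subtype_mk _) ⟨?_, ?_⟩
        · intro X Y h
          exact hi (hb.1 (congrArg Subtype.val h))
        · rintro ⟨R, hR⟩
          obtain ⟨Y, rfl⟩ := hb.2 R
          have : Y.1 ∈ U := by
            by_contra hY
            apply hR
            congr 1
            refine Subtype.ext (Ray.ext' fun x => ⟨fun k => ?_, fun k => ?_⟩)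
            · exact ((hB Y.1).2 Y.2).2 Y.1 hY J.1 hJ Y.2.1 J.2.1 x k k
            · exact ((hB J.1).2 J.2).2 J.1 hJ Y.1 hY J.2.1 Y.2.1 x k k
          obtain ⟨X, rfl⟩ := hs Y this
          exact ⟨X, rfl⟩
      · push Not at hJ
        exact ⟨N, inst, hN, φ ∘ e, hφ.comp he, hb.comp ⟨hi, fun Y => hs Y (hJ Y)⟩⟩
    · have : IsEmpty {X : U | g X = u} := ⟨fun X => hne ⟨X.1, X.2⟩⟩
      refine QR_of_rel (S := PEmpty) (fun _ _ => True) (fun a => a.elim) (fun a => a.elim)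
        (fun a => a.elim) (fun a => a.elim) ⟨fun a => a.elim⟩ (fun _ => ∅)
        (fun x => isEmptyElim x) (fun a => a.elim) (fun x => isEmptyElim x) ?_
      rintro R ⟨⟨a, -⟩, -⟩
      exact a.elim

end Pool.Agent.H.MP_a0fd6e_gt
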