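import Mathlib

namespace Pool.Agent.H.MP_a0fd6e_gt

/-- every initial segment `{s | s ≤ t}` is well-ordered -/
def IsTreeOrder (T : Type*) [PartialOrder T] : Prop :=
  ∀ t : T, IsWellOrder (Set.Iic t) (· < ·)

/-- a ray: a nonempty down-closed chain without maximal element -/
def IsRay {T : Type*} [PartialOrder T] (R : Set T) : Prop :=
  R.Nonempty ∧ IsChain (· ≤ ·) R ∧ IsLowerSet R ∧ ∀ a ∈ R, ∃ b ∈ R, a < b

/-- the ray space -/
def Ray (T : Type*) [PartialOrder T] : Type _ := {R : Set T // IsRay R}

open Classical in
/-- the indicator function of a ray, a point of the Cantor cube -/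
noncomputable def ind {T : Type*} [PartialOrder T] (R : Ray T) : T → Bool :=
  fun t => decide (t ∈ R.1)

/-- the topology induced from the Cantor cube `T → Bool` -/
noncomputable instance rayTop (T : Type*) [PartialOrder T] : TopologicalSpace (Ray T) :=
  TopologicalSpace.induced ind inferInstance

end Pool.Agent.H.MP_a0fd6e_gt
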